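import Pool.Agent.Lib.MP_6bc78b_nt.MS.P2.Iface

/-! Project MS (MP_6bc78b_nt), Part II, module RGM: the class of arithmetic functions with
cancellation in character sums to small conductors is closed under convolution
(hyperbola method). -/

set_option autoImplicit false

open Filter Topology ArithmeticFunction

namespace Pool.Agent.Lib.MP_6bc78b_nt.MS.P2.H92

/-- The hyperbola identity. -/
lemma hyperbola (N X Y : ℕ) (hXN : X ≤ N) (hYX : Y ≤ N) (f g : ℕ → ℂ) :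
    ∑ a ∈ Finset.Icc 1 N, ∑ b ∈ Finset.Icc 1 N, (if a * b ≤ X then f a * g b else 0) =
      ∑ a ∈ Finset.Icc 1 Y, f a * ∑ b ∈ Finset.Icc 1 (X / a), g b +
      ∑ b ∈ Finset.Icc 1 (X / (Y + 1)), g b * ∑ a ∈ Finset.Ioc Y (X / b), f a := by
  have h1 : Finset.Icc 1 N = Finset.Icc 1 Y ∪ Finset.Ioc Y N := by
    ext a
    simp only [Finset.mem_union, Finset.mem_Icc, Finset.mem_Ioc]
    omega
  have h2 : Disjoint (Finset.Icc 1 Y) (Finset.Ioc Y N) := by
    rw [Finset.disjoint_left]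
    intro a ha hb
    simp only [Finset.mem_Icc, Finset.mem_Ioc] at ha hb
    omega
  conv_lhs => rw [h1, Finset.sum_union h2]
  rw [← h1]
  congr 1
  · refine Finset.sum_congr rfl (fun a ha => ?_)
    rw [Finset.mem_Icc] at ha
    rw [← Finset.sum_filter, ← Finset.mul_sum]
    congr 1
    refine Finset.sum_congr ?_ (fun _ _ => rfl)
    ext b
    simp only [Finset.mem_filter, Finset.mem_Icc]
    have h3 : b ≤ X / a ↔ b * a ≤ X := Nat.le_div_iff_mul_le (by omega)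
    rw [h3, mul_comm b a]
    constructor
    · rintro ⟨⟨h4, _⟩, h5⟩
      exact ⟨h4, h5⟩
    · rintro ⟨h4, h5⟩
      refine ⟨⟨h4, ?_⟩, h5⟩
      calc b ≤ a * b := Nat.le_mul_of_pos_left b (by omega)
        _ ≤ X := h5
        _ ≤ N := hXN
  · rw [Finset.sum_comm]
    have h3 : Finset.Icc 1 (X / (Y + 1)) ⊆ Finset.Icc 1 N := by
      intro b hb
      rw [Finset.mem_Icc] at hb ⊢
      exact ⟨hb.1, hb.2.trans ((Nat.div_le_self X (Y + 1)).trans hXN)⟩
    rw [← Finset.sum_subset h3]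
    · refine Finset.sum_congr rfl (fun b hb => ?_)
      rw [Finset.mem_Icc] at hb
      rw [← Finset.sum_filter, Finset.mul_sum]
      refine Finset.sum_congr ?_ (fun a _ => by ring)
      ext a
      simp only [Finset.mem_filter, Finset.mem_Ioc]
      have h4 : a ≤ X / b ↔ a * b ≤ X := Nat.le_div_iff_mul_le (by omega)
      rw [h4]
      constructor
      · rintro ⟨⟨h5, _⟩, h6⟩
        exact ⟨h5, h6⟩
      · rintro ⟨h5, h6⟩
        refine ⟨⟨h5, ?_⟩, h6⟩
        calc a ≤ a * b := Nat.le_mul_of_pos_right a (by omega)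
          _ ≤ X := h6
          _ ≤ N := hXN
    · intro b hb hb2
      rw [Finset.mem_Icc] at hb hb2
      refine Finset.sum_eq_zero (fun a ha => ?_)
      rw [Finset.mem_Ioc] at ha
      rw [if_neg]
      intro h5
      apply hb2
      refine ⟨hb.1, ?_⟩
      rw [Nat.le_div_iff_mul_le (by omega)]
      calc b * (Y + 1) ≤ b * a := Nat.mul_le_mul_left b (by omega)
        _ = a * b := mul_comm _ _
        _ ≤ X := h5

/-- The hyperbola method: bound of a double sum from bounds of the single sums. -/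
lemma hyp_bound (N : ℕ) (x : ℝ) (hx : 1 ≤ x) (hN : ⌊x⌋₊ ≤ N) (f g : ℕ → ℂ) (E : ℝ) (hE : 0 ≤ E)
    (hF : ∀ t : ℝ, Real.sqrt x ≤ t → t ≤ x → ‖∑ a ∈ Finset.Icc 1 ⌊t⌋₊, f a‖ ≤ t * E)
    (hG : ∀ t : ℝ, Real.sqrt x ≤ t → t ≤ x → ‖∑ a ∈ Finset.Icc 1 ⌊t⌋₊, g a‖ ≤ t * E) :
    ‖∑ a ∈ Finset.Icc 1 N, ∑ b ∈ Finset.Icc 1 N, (if a * b ≤ ⌊x⌋₊ then f a * g b else 0)‖ ≤
      x * E * (∑ a ∈ Finset.Icc 1 ⌊Real.sqrt x⌋₊, ‖f a‖ / a +
        2 * ∑ b ∈ Finset.Icc 1 ⌊Real.sqrt x⌋₊, ‖g b‖ / b) := by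
  set X := ⌊x⌋₊ with hX
  set Y := ⌊Real.sqrt x⌋₊ with hY
  have hx0 : 0 ≤ x := by linarith
  have hs1 : 1 ≤ Real.sqrt x := by
    rw [Real.one_le_sqrt]; exact hx
  have hs2 : Real.sqrt x * Real.sqrt x = x := Real.mul_self_sqrt hx0
  have hsx : Real.sqrt x ≤ x := by nlinarith
  have hYX : Y ≤ X := Nat.floor_le_floor hsx
  have hYs : (Y : ℝ) ≤ Real.sqrt x := Nat.floor_le (by linarith)
  have hYs2 : Real.sqrt x < (Y : ℝ) + 1 := Nat.lt_floor_add_one _
  -- division and floor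
  have hdiv : ∀ a : ℕ, X / a = ⌊x / (a : ℝ)⌋₊ := fun a => (Nat.floor_div_natCast x a).symm
  have hbY : X / (Y + 1) ≤ Y := by
    rw [hdiv, hY]
    apply Nat.floor_le_floor
    rw [div_le_iff₀ (by positivity)]
    push_cast
    nlinarith
  rw [hyperbola N X Y hN (hYX.trans hN) f g]
  have hA : ‖∑ a ∈ Finset.Icc 1 Y, f a * ∑ b ∈ Finset.Icc 1 (X / a), g b‖ ≤
      x * E * ∑ a ∈ Finset.Icc 1 Y, ‖f a‖ / a := by
    rw [Finset.mul_sum]
    refine norm_sum_le_of_le _ (fun a ha => ?_)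
    rw [Finset.mem_Icc] at ha
    have ha0 : (0 : ℝ) < a := by exact_mod_cast (by omega : 0 < a)
    have ha1 : (1 : ℝ) ≤ a := by exact_mod_cast ha.1
    have haY : (a : ℝ) ≤ Real.sqrt x := le_trans (by exact_mod_cast ha.2) hYs
    rw [norm_mul, hdiv]
    have h3 : Real.sqrt x ≤ x / a := by
      rw [le_div_iff₀ ha0]; nlinarith
    have h4 : x / a ≤ x := div_le_self hx0 ha1
    have h5 := hG (x / a) h3 h4
    calc ‖f a‖ * ‖∑ b ∈ Finset.Icc 1 ⌊x / (a : ℝ)⌋₊, g b‖ ≤ ‖f a‖ * (x / a * E) :=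
          mul_le_mul_of_nonneg_left h5 (norm_nonneg _)
      _ = x * E * (‖f a‖ / a) := by ring
  have hB : ‖∑ b ∈ Finset.Icc 1 (X / (Y + 1)), g b * ∑ a ∈ Finset.Ioc Y (X / b), f a‖ ≤
      x * E * (2 * ∑ b ∈ Finset.Icc 1 Y, ‖g b‖ / b) := by
    have hB1 : ‖∑ b ∈ Finset.Icc 1 (X / (Y + 1)), g b * ∑ a ∈ Finset.Ioc Y (X / b), f a‖ ≤
        ∑ b ∈ Finset.Icc 1 (X / (Y + 1)), x * E * (2 * (‖g b‖ / b)) := by
      refine norm_sum_le_of_le _ (fun b hb => ?_)
      rw [Finset.mem_Icc] at hb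
      have hb0 : (0 : ℝ) < b := by exact_mod_cast (by omega : 0 < b)
      have hb1 : (1 : ℝ) ≤ b := by exact_mod_cast hb.1
      have hbY' : (b : ℝ) ≤ Real.sqrt x := le_trans (by exact_mod_cast (hb.2.trans hbY)) hYs
      have h3 : Real.sqrt x ≤ x / b := by
        rw [le_div_iff₀ hb0]; nlinarith
      have h4 : x / b ≤ x := div_le_self hx0 hb1
      have hYb : Y ≤ X / b := by
        rw [hdiv, hY]
        exact Nat.floor_le_floor h3
      have h5 : ∑ a ∈ Finset.Ioc Y (X / b), f a =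
          ∑ a ∈ Finset.Icc 1 (X / b), f a - ∑ a ∈ Finset.Icc 1 Y, f a := by
        rw [eq_sub_iff_add_eq, ← Finset.sum_union]
        · refine Finset.sum_congr ?_ (fun _ _ => rfl)
          ext a
          simp only [Finset.mem_union, Finset.mem_Icc, Finset.mem_Ioc]
          omega
        · rw [Finset.disjoint_left]
          intro a ha hb
          simp only [Finset.mem_Icc, Finset.mem_Ioc] at ha hb
          omega
      have h6 := hF (x / b) h3 h4
      have h7 := hF (Real.sqrt x) le_rfl hsx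
      rw [norm_mul, h5]
      have h8 : ‖∑ a ∈ Finset.Icc 1 (X / b), f a - ∑ a ∈ Finset.Icc 1 Y, f a‖ ≤
          2 * (x / b * E) := by
        refine (norm_sub_le _ _).trans ?_
        rw [hdiv]
        have h9 : Real.sqrt x * E ≤ x / b * E := mul_le_mul_of_nonneg_right h3 hE
        linarith
      calc ‖g b‖ * ‖∑ a ∈ Finset.Icc 1 (X / b), f a - ∑ a ∈ Finset.Icc 1 Y, f a‖
          ≤ ‖g b‖ * (2 * (x / b * E)) := mul_le_mul_of_nonneg_left h8 (norm_nonneg _)
        _ = x * E * (2 * (‖g b‖ / b)) := by ring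
    refine hB1.trans ?_
    rw [← Finset.mul_sum, ← Finset.mul_sum]
    have hxE : 0 ≤ x * E := mul_nonneg hx0 hE
    refine mul_le_mul_of_nonneg_left (mul_le_mul_of_nonneg_left ?_ (by norm_num)) hxE
    refine Finset.sum_le_sum_of_subset_of_nonneg ?_ (fun b _ _ => by positivity)
    exact Finset.Icc_subset_Icc_right hbY
  calc _ ≤ x * E * ∑ a ∈ Finset.Icc 1 Y, ‖f a‖ / a + x * E * (2 * ∑ b ∈ Finset.Icc 1 Y, ‖g b‖ / b) :=
        (norm_add_le _ _).trans (add_le_add hA hB)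
    _ = _ := by ring

/-- The convolution of two functions at the multiples of `d`. -/
lemma split_sum (hspl : SplStatement) (d e X q : ℕ) (hd : 1 ≤ d) (ψ : DirichletCharacter ℂ q)
    (u v : ArithmeticFunction ℝ) :
    ∑ r ∈ (Finset.Icc 1 X).filter (fun r => Nat.Coprime r e),
      (((u * v) (d * r) : ℝ) : ℂ) * ψ (r : ZMod q) =
    ∑ d1 ∈ d.divisors, ∑ a ∈ Finset.Icc 1 (d * X), ∑ b ∈ Finset.Icc 1 (d * X),
      (if a * b ≤ X then
        (if Nat.Coprime a (e * (d / d1)) then ((u (d1 * a) : ℝ) : ℂ) * ψ (a : ZMod q) else 0) *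
        (if Nat.Coprime b e then ((v (d / d1 * b) : ℝ) : ℂ) * ψ (b : ZMod q) else 0) else 0) := by
  classical
  have hd0 : 0 < d := hd
  have h1 := hspl d (d * X) hd u v
    (fun n => if Nat.Coprime (n / d) e then ψ ((n / d : ℕ) : ZMod q) else 0)
  have h2 : ∑ r ∈ (Finset.Icc 1 X).filter (fun r => Nat.Coprime r e),
      (((u * v) (d * r) : ℝ) : ℂ) * ψ (r : ZMod q) =
      ∑ n ∈ (Finset.Icc 1 (d * X)).filter (fun n => d ∣ n), (((u * v) n : ℝ) : ℂ) *
        (if Nat.Coprime (n / d) e then ψ ((n / d : ℕ) : ZMod q) else 0) := by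
    rw [Finset.sum_filter]
    refine Finset.sum_bij (fun r _ => d * r) ?_ ?_ ?_ ?_
    · intro r hr
      simp only [Finset.mem_filter, Finset.mem_Icc] at hr ⊢
      exact ⟨⟨Nat.mul_pos hd0 (by omega), Nat.mul_le_mul_left d hr.2⟩, Dvd.intro r rfl⟩
    · intro a _ b _ hab
      exact Nat.eq_of_mul_eq_mul_left hd0 hab
    · intro n hn
      simp only [Finset.mem_filter, Finset.mem_Icc] at hn
      obtain ⟨⟨hn1, hn2⟩, k, hk⟩ := hn
      refine ⟨k, ?_, hk.symm⟩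
      rw [Finset.mem_Icc]
      subst hk
      refine ⟨Nat.pos_of_ne_zero (by rintro rfl; simp at hn1), ?_⟩
      exact Nat.le_of_mul_le_mul_left hn2 hd0
    · intro r hr
      simp only [Nat.mul_div_cancel_left r hd0]
      split_ifs <;> simp
  rw [h2, h1]
  refine Finset.sum_congr rfl (fun d1 hd1 => ?_)
  rw [Finset.sum_filter]
  refine Finset.sum_congr rfl (fun a ha => ?_)
  rw [Finset.mem_Icc] at ha
  by_cases hc : Nat.Coprime a (d / d1)
  · rw [if_pos hc, Finset.sum_filter]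
    refine Finset.sum_congr rfl (fun b hb => ?_)
    rw [Finset.mem_Icc] at hb
    have h3 : d * a * b ≤ d * X ↔ a * b ≤ X := by
      rw [mul_assoc]
      exact Nat.mul_le_mul_left_iff hd0
    simp only [h3]
    by_cases h4 : a * b ≤ X
    · rw [if_pos h4, if_pos h4]
      have h5 : d * a * b / d = a * b := by
        rw [mul_assoc]; exact Nat.mul_div_cancel_left _ hd0
      rw [h5]
      have h6 : Nat.Coprime a (e * (d / d1)) ↔ Nat.Coprime a e := by
        rw [Nat.coprime_mul_iff_right]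
        exact ⟨fun h => h.1, fun h => ⟨h, hc⟩⟩
      have h7 : Nat.Coprime (a * b) e ↔ Nat.Coprime a e ∧ Nat.Coprime b e :=
        Nat.coprime_mul_iff_left
      have h8 : ψ ((a * b : ℕ) : ZMod q) = ψ (a : ZMod q) * ψ (b : ZMod q) := by
        rw [Nat.cast_mul, map_mul]
      by_cases h9 : Nat.Coprime a e
      · by_cases h10 : Nat.Coprime b e
        · rw [if_pos (h7.mpr ⟨h9, h10⟩), if_pos (h6.mpr h9), if_pos h10, h8]
          ring
        · rw [if_neg (fun h => h10 (h7.mp h).2), if_neg h10]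
          simp
      · rw [if_neg (fun h => h9 (h7.mp h).1), if_neg (fun h => h9 (h6.mp h))]
        simp
    · rw [if_neg h4, if_neg h4]
  · rw [if_neg hc]
    symm
    refine Finset.sum_eq_zero (fun b _ => ?_)
    have h6 : ¬ Nat.Coprime a (e * (d / d1)) := by
      rw [Nat.coprime_mul_iff_right]
      exact fun h => hc h.2
    rw [if_neg h6]
    simp

/-! ### Constants can be enlarged -/

lemma dv_one_le {n : ℕ} (hn : 1 ≤ n) : 1 ≤ dv n := by
  unfold dv
  have : 0 < n.divisors.card := Finset.card_pos.mpr ⟨1, by simp; omega⟩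
  exact_mod_cast this

lemma dv_nonneg (n : ℕ) : 0 ≤ dv n := by
  unfold dv; positivity

lemma dv_mono {a b : ℕ} (hb : b ≠ 0) (h : a ∣ b) : dv a ≤ dv b := by
  unfold dv
  exact_mod_cast Finset.card_le_card (Nat.divisors_subset_of_dvd hb h)

/-- The bound of `Tb` with a given constant. -/
def TbK (ρ : ArithmeticFunction ℝ) (K : ℕ) : Prop := ∀ n : ℕ,
  |ρ n| ≤ (K : ℝ) * (1 + Real.log n) ^ K * dv n ^ K

lemma TbK.mono {ρ : ArithmeticFunction ℝ} {K K' : ℕ} (h : TbK ρ K) (hK : K ≤ K') :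
    TbK ρ K' := by
  intro n
  rcases Nat.eq_zero_or_pos n with rfl | hn
  · have h0 : ρ 0 = 0 := ρ.map_zero
    rw [h0, abs_zero]
    have := dv_nonneg 0
    simp only [Nat.cast_zero, Real.log_zero, add_zero, one_pow, mul_one]
    positivity
  · refine (h n).trans ?_
    have h1 : 1 ≤ dv n := dv_one_le hn
    have h2 : 0 ≤ Real.log n := Real.log_natCast_nonneg n
    have h3 : (K : ℝ) ≤ K' := by exact_mod_cast hK
    have h4 : (1 + Real.log n) ^ K ≤ (1 + Real.log n) ^ K' := pow_le_pow_right₀ (by linarith) hK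
    have h5 : dv n ^ K ≤ dv n ^ K' := pow_le_pow_right₀ h1 hK
    gcongr

/-- The bound of `Reg` with a given constant. -/
def RegK (ρ : ArithmeticFunction ℝ) (K : ℕ) : Prop := ∀ A B H : ℕ, ∀ᶠ x : ℝ in atTop,
  ∀ q : ℕ, 2 ≤ q → (q : ℝ) ≤ Real.log x ^ A → ∀ ψ : DirichletCharacter ℂ q, ψ ≠ 1 →
  ∀ d e : ℕ, Squarefree d → 1 ≤ e → (d : ℝ) ≤ x ^ H → (e : ℝ) ≤ x ^ H →
    ‖∑ r ∈ (Finset.Icc 1 ⌊x⌋₊).filter (fun r => Nat.Coprime r e),
      ((ρ (d * r) : ℝ) : ℂ) * ψ (r : ZMod q)‖ ≤ x * dv d ^ K * dv e ^ K / Real.log x ^ B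

lemma RegK.mono {ρ : ArithmeticFunction ℝ} {K K' : ℕ} (h : RegK ρ K) (hK : K ≤ K') :
    RegK ρ K' := by
  intro A B H
  filter_upwards [h A B H, eventually_ge_atTop (1 : ℝ)] with x hx hx1
  intro q hq2 hqA ψ hψ d e hd he hdx hex
  refine (hx q hq2 hqA ψ hψ d e hd he hdx hex).trans ?_
  have h1 : 1 ≤ dv d := dv_one_le (Nat.one_le_iff_ne_zero.mpr hd.ne_zero)
  have h2 : 1 ≤ dv e := dv_one_le he
  have h3 : 0 ≤ Real.log x := Real.log_nonneg hx1
  have h4 : dv d ^ K ≤ dv d ^ K' := pow_le_pow_right₀ h1 hK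
  have h5 : dv e ^ K ≤ dv e ^ K' := pow_le_pow_right₀ h2 hK
  gcongr

/-- The trivial bound of a convolution. -/
lemma tb_mul {ρ ρ' : ArithmeticFunction ℝ} (h : Tb ρ) (h' : Tb ρ') : Tb (ρ * ρ') := by
  obtain ⟨K1, h1⟩ := h
  obtain ⟨K2, h2⟩ := h'
  have hk1 : TbK ρ (K1 + K2) := TbK.mono h1 (Nat.le_add_right _ _)
  have hk2 : TbK ρ' (K1 + K2) := TbK.mono h2 (Nat.le_add_left _ _)
  set K := K1 + K2 with hK
  refine ⟨K * K + (2 * K + 1), fun n => ?_⟩
  rcases Nat.eq_zero_or_pos n with rfl | hn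
  · have h0 : (ρ * ρ') 0 = 0 := (ρ * ρ').map_zero
    rw [h0, abs_zero]
    have := dv_nonneg 0
    simp only [Nat.cast_zero, Real.log_zero, add_zero, one_pow, mul_one]
    positivity
  have hd1 : 1 ≤ dv n := dv_one_le hn
  have hl : 0 ≤ Real.log n := Real.log_natCast_nonneg n
  have hn0 : n ≠ 0 := by omega
  have key : ∀ (ρ : ArithmeticFunction ℝ), TbK ρ K → ∀ a : ℕ, a ∣ n →
      |ρ a| ≤ (K : ℝ) * (1 + Real.log n) ^ K * dv n ^ K := by
    intro ρ hρ a ha
    refine (hρ a).trans ?_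
    have ha0 : 0 < a := Nat.pos_of_dvd_of_pos ha hn
    have h3 : Real.log a ≤ Real.log n :=
      Real.log_le_log (by exact_mod_cast ha0) (by exact_mod_cast Nat.le_of_dvd hn ha)
    have h4 : dv a ≤ dv n := dv_mono hn0 ha
    have h5 : 0 ≤ Real.log a := Real.log_natCast_nonneg a
    have h6 := dv_nonneg a
    gcongr
  rw [ArithmeticFunction.mul_apply]
  have h3 : |∑ x ∈ n.divisorsAntidiagonal, ρ x.1 * ρ' x.2| ≤
      ∑ x ∈ n.divisorsAntidiagonal,
        ((K : ℝ) * (1 + Real.log n) ^ K * dv n ^ K) * ((K : ℝ) * (1 + Real.log n) ^ K * dv n ^ K) := by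
    refine (Finset.abs_sum_le_sum_abs _ _).trans (Finset.sum_le_sum (fun x hx => ?_))
    rw [Nat.mem_divisorsAntidiagonal] at hx
    rw [abs_mul]
    have h4 := key ρ hk1 x.1 ⟨x.2, hx.1.symm⟩
    have h5 := key ρ' hk2 x.2 ⟨x.1, by rw [mul_comm]; exact hx.1.symm⟩
    exact mul_le_mul h4 h5 (abs_nonneg _) (by positivity)
  refine h3.trans ?_
  rw [Finset.sum_const]
  have hcard : n.divisorsAntidiagonal.card = n.divisors.card := by
    rw [← Nat.map_div_right_divisors, Finset.card_map]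
  rw [hcard, nsmul_eq_mul]
  have hdv : (n.divisors.card : ℝ) = dv n := rfl
  rw [hdv]
  have e1 : dv n * ((K : ℝ) * (1 + Real.log n) ^ K * dv n ^ K * ((K : ℝ) * (1 + Real.log n) ^ K * dv n ^ K)) =
      ((K : ℝ) * K) * (1 + Real.log n) ^ (2 * K) * dv n ^ (2 * K + 1) := by
    rw [two_mul, pow_succ, pow_add, pow_add]; ring
  rw [e1]
  have h6 : (1 + Real.log n) ^ (2 * K) ≤ (1 + Real.log n) ^ (K * K + (2 * K + 1)) :=
    pow_le_pow_right₀ (by linarith) (by nlinarith)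
  have h7 : dv n ^ (2 * K + 1) ≤ dv n ^ (K * K + (2 * K + 1)) :=
    pow_le_pow_right₀ hd1 (by nlinarith)
  have h8 : ((K : ℝ) * K) ≤ ((K * K + (2 * K + 1) : ℕ) : ℝ) := by
    push_cast
    have : (0 : ℝ) ≤ K := Nat.cast_nonneg K
    nlinarith
  have hd0 := dv_nonneg n
  gcongr

/-- The harmonic sum of a `Tb` function, at the multiples of `d1`. -/
lemma harm_bound (hdiv : DivStatement) {ρ : ArithmeticFunction ℝ} {K : ℕ} (hρ : TbK ρ K)
    (H : ℕ) (x : ℝ) (hx : Real.exp 1 ≤ x) (d d1 : ℕ) (hd : d ≠ 0) (hd1 : d1 ∣ d)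
    (hdx : (d : ℝ) ≤ x ^ H) (F : ℕ → ℂ) (hF : ∀ a : ℕ, ‖F a‖ ≤ |ρ (d1 * a)|) :
    ∑ a ∈ Finset.Icc 1 ⌊Real.sqrt x⌋₊, ‖F a‖ / a ≤
      (K : ℝ) * ((H + 2 : ℕ) * Real.log x) ^ K * dv d ^ K * (2 * Real.log x) ^ (2 ^ K) := by
  have hx1 : 1 ≤ x := le_trans (by have := Real.add_one_le_exp (1 : ℝ); linarith) hx
  have hx0 : 0 < x := by linarith
  have hL : 1 ≤ Real.log x := by
    rw [Real.le_log_iff_exp_le hx0]; exact hx
  have hs1 : 1 ≤ Real.sqrt x := by rw [Real.one_le_sqrt]; exact hx1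
  have hs2 : Real.sqrt x * Real.sqrt x = x := Real.mul_self_sqrt hx0.le
  have hsx : Real.sqrt x ≤ x := by nlinarith
  have hY1 : 1 ≤ ⌊Real.sqrt x⌋₊ := by
    rw [Nat.one_le_floor_iff]; exact hs1
  have hYx : ((⌊Real.sqrt x⌋₊ : ℕ) : ℝ) ≤ x := (Nat.floor_le (by linarith)).trans hsx
  obtain ⟨hmul, _, hsum, _⟩ := hdiv
  have h1 : ∀ a ∈ Finset.Icc 1 ⌊Real.sqrt x⌋₊, ‖F a‖ / a ≤
      (K : ℝ) * ((H + 2 : ℕ) * Real.log x) ^ K * dv d ^ K * (dv a ^ K / a) := by
    intro a ha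
    rw [Finset.mem_Icc] at ha
    have ha0 : (0 : ℝ) < a := by exact_mod_cast (by omega : 0 < a)
    have ha1 : (1 : ℝ) ≤ a := by exact_mod_cast ha.1
    have hax : (a : ℝ) ≤ x := le_trans (by exact_mod_cast ha.2) hYx
    have hd10 : 0 < d1 := Nat.pos_of_dvd_of_pos hd1 (Nat.pos_of_ne_zero hd)
    have hd1r : (0 : ℝ) < d1 := by exact_mod_cast hd10
    have hd1x : (d1 : ℝ) ≤ x ^ H :=
      le_trans (by exact_mod_cast Nat.le_of_dvd (Nat.pos_of_ne_zero hd) hd1) hdx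
    have h2 : Real.log ((d1 * a : ℕ) : ℝ) ≤ (H + 1) * Real.log x := by
      push_cast
      rw [Real.log_mul hd1r.ne' ha0.ne']
      have h3 : Real.log d1 ≤ H * Real.log x := by
        rw [← Real.log_pow]
        exact Real.log_le_log hd1r hd1x
      have h4 : Real.log a ≤ Real.log x := Real.log_le_log ha0 hax
      linarith
    have h3 : 1 + Real.log ((d1 * a : ℕ) : ℝ) ≤ (H + 2 : ℕ) * Real.log x := by
      push_cast at h2 ⊢
      nlinarith
    have h4 : dv (d1 * a) ^ K ≤ dv d ^ K * dv a ^ K := by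
      rw [← mul_pow]
      refine pow_le_pow_left₀ (dv_nonneg _) ?_ K
      refine (hmul d1 a).trans ?_
      exact mul_le_mul_of_nonneg_right (dv_mono hd hd1) (dv_nonneg a)
    have h5 : 0 ≤ Real.log ((d1 * a : ℕ) : ℝ) := Real.log_natCast_nonneg _
    have h6 : ‖F a‖ ≤ (K : ℝ) * ((H + 2 : ℕ) * Real.log x) ^ K * (dv d ^ K * dv a ^ K) := by
      refine (hF a).trans ((hρ (d1 * a)).trans ?_)
      have hp : (1 + Real.log ((d1 * a : ℕ) : ℝ)) ^ K ≤ ((H + 2 : ℕ) * Real.log x) ^ K :=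
        pow_le_pow_left₀ (by linarith) h3 K
      have hda := dv_nonneg a
      have hdd := dv_nonneg d
      have hdda := dv_nonneg (d1 * a)
      gcongr
    rw [div_le_iff₀ ha0]
    refine h6.trans (le_of_eq ?_)
    field_simp
  refine (Finset.sum_le_sum h1).trans ?_
  rw [← Finset.mul_sum]
  have h7 := hsum K ⌊Real.sqrt x⌋₊ hY1
  have h8 : (1 + Real.log ((⌊Real.sqrt x⌋₊ : ℕ) : ℝ)) ^ (2 ^ K) ≤ (2 * Real.log x) ^ (2 ^ K) := by
    have h9 : Real.log ((⌊Real.sqrt x⌋₊ : ℕ) : ℝ) ≤ Real.log x :=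
      Real.log_le_log (by exact_mod_cast hY1) hYx
    have h10 : 0 ≤ Real.log ((⌊Real.sqrt x⌋₊ : ℕ) : ℝ) := Real.log_natCast_nonneg _
    exact pow_le_pow_left₀ (by linarith) (by linarith) _
  have hdd := dv_nonneg d
  exact mul_le_mul_of_nonneg_left (h7.trans h8) (by positivity)

/-- `RegK` is closed under convolution. -/
lemma regK_mul (hdiv : DivStatement) (hspl : SplStatement) {ρ ρ' : ArithmeticFunction ℝ} {K : ℕ}
    (hT : TbK ρ K) (hT' : TbK ρ' K) (hR : RegK ρ K) (hR' : RegK ρ' K) :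
    RegK (ρ * ρ') (3 * K + 1) := by
  intro A B H
  -- the exponent
  set M : ℕ := K + 2 ^ K with hM
  set B' : ℕ := B + M + 1 with hB'
  set Q : ℝ := 3 * ((K : ℝ) * ((H + 2 : ℕ) : ℝ) ^ K * 2 ^ (2 ^ K) * 2 ^ B') with hQ
  have ev1 := hR (A + 1) B' (4 * H)
  have ev2 := hR' (A + 1) B' (4 * H)
  rw [eventually_atTop] at ev1 ev2
  obtain ⟨x1, hx1⟩ := ev1
  obtain ⟨x2, hx2⟩ := ev2
  have hlog := Real.tendsto_log_atTop
  filter_upwards [eventually_ge_atTop (Real.exp 1), eventually_ge_atTop (x1 ^ 2),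
    eventually_ge_atTop (x2 ^ 2), hlog.eventually_ge_atTop (2 ^ (A + 1)),
    hlog.eventually_ge_atTop Q, hlog.eventually_ge_atTop 2] with x hxe hxx1 hxx2 hxA hxQ hx2l
  intro q hq2 hqA ψ hψ d e hdsq he hdx hex
  have hd0 : d ≠ 0 := hdsq.ne_zero
  have hdpos : 0 < d := Nat.pos_of_ne_zero hd0
  have hxone : 1 ≤ x := le_trans (by have := Real.add_one_le_exp (1 : ℝ); linarith) hxe
  have hxpos : 0 < x := by linarith
  have hL : 2 ≤ Real.log x := hx2l
  have hLpos : 0 < Real.log x := by linarith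
  have hs1 : 1 ≤ Real.sqrt x := by rw [Real.one_le_sqrt]; exact hxone
  have hsp : 0 < Real.sqrt x := by linarith
  have hs2 : Real.sqrt x * Real.sqrt x = x := Real.mul_self_sqrt hxpos.le
  obtain ⟨hmul, _, _, _⟩ := id hdiv
  have hdvd1 : 1 ≤ dv d := dv_one_le hdpos
  have hdve1 : 1 ≤ dv e := dv_one_le he
  -- the common error factor
  set E : ℝ := dv d ^ (2 * K) * dv e ^ K * 2 ^ B' / Real.log x ^ B' with hE
  have hE0 : 0 ≤ E := by positivity
  -- facts on `t ∈ [√x, x]`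
  have htx : ∀ t : ℝ, Real.sqrt x ≤ t → t ≤ x → x1 ≤ t ∧ x2 ≤ t ∧ (q : ℝ) ≤ Real.log t ^ (A + 1) ∧
      Real.log x / 2 ≤ Real.log t ∧ x ^ (2 * H) ≤ t ^ (4 * H) ∧ 1 ≤ t := by
    intro t ht1 ht2
    have ht1' : 1 ≤ t := hs1.trans ht1
    have htt : x ≤ t ^ 2 := by nlinarith
    refine ⟨?_, ?_, ?_, ?_, ?_, ht1'⟩
    · by_contra hcon
      push Not at hcon
      nlinarith [hxx1.trans htt]
    · by_contra hcon
      push Not at hcon
      nlinarith [hxx2.trans htt]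
    · have h3 : Real.log x / 2 ≤ Real.log t := by
        have : Real.log x ≤ Real.log (t ^ 2) := Real.log_le_log hxpos htt
        rw [Real.log_pow] at this
        push_cast at this
        linarith
      refine hqA.trans ?_
      have h4 : (Real.log x / 2) ^ (A + 1) ≤ Real.log t ^ (A + 1) :=
        pow_le_pow_left₀ (by linarith) h3 _
      refine le_trans ?_ h4
      rw [div_pow, le_div_iff₀ (by positivity), pow_succ (Real.log x) A]
      exact mul_le_mul_of_nonneg_left hxA (by positivity)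
    · have : Real.log x ≤ Real.log (t ^ 2) := Real.log_le_log hxpos htt
      rw [Real.log_pow] at this
      push_cast at this
      linarith
    · calc x ^ (2 * H) ≤ (t ^ 2) ^ (2 * H) := pow_le_pow_left₀ hxpos.le htt _
        _ = t ^ (4 * H) := by rw [← pow_mul]; congr 1; ring
  have hxH : x ^ H ≤ x ^ (2 * H) := pow_le_pow_right₀ hxone (by omega)
  -- the general single sum bound
  have hsingle : ∀ (σ : ArithmeticFunction ℝ) (t : ℝ) (dd ee : ℕ), Real.sqrt x ≤ t → t ≤ x →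
      dd ∣ d → 1 ≤ ee → dv ee ≤ dv e * dv d → 
      ‖∑ r ∈ (Finset.Icc 1 ⌊t⌋₊).filter (fun r => Nat.Coprime r ee),
        ((σ (dd * r) : ℝ) : ℂ) * ψ (r : ZMod q)‖ ≤ t * dv dd ^ K * dv ee ^ K / Real.log t ^ B' →
      ‖∑ r ∈ (Finset.Icc 1 ⌊t⌋₊).filter (fun r => Nat.Coprime r ee),
        ((σ (dd * r) : ℝ) : ℂ) * ψ (r : ZMod q)‖ ≤ t * E := by
    intro σ t dd ee ht1 ht2 hdd hee hdvee h
    refine h.trans ?_
    obtain ⟨_, _, _, hlt, _, ht1'⟩ := htx t ht1 ht2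
    have ha : dv dd ^ K ≤ dv d ^ K := pow_le_pow_left₀ (dv_nonneg _) (dv_mono hd0 hdd) K
    have hb : dv ee ^ K ≤ (dv e * dv d) ^ K := pow_le_pow_left₀ (dv_nonneg _) hdvee K
    have hc : (Real.log x / 2) ^ B' ≤ Real.log t ^ B' := pow_le_pow_left₀ (by linarith) hlt _
    have hd : 0 < (Real.log x / 2) ^ B' := by positivity
    have n1 := dv_nonneg dd
    have n2 := dv_nonneg ee
    calc t * dv dd ^ K * dv ee ^ K / Real.log t ^ B'
        ≤ t * dv d ^ K * (dv e * dv d) ^ K / (Real.log x / 2) ^ B' := by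
          gcongr
      _ = t * E := by
          rw [hE, mul_pow, div_pow, two_mul K, pow_add]
          field_simp
          try ring
  rw [split_sum hspl d e ⌊x⌋₊ q hdpos ψ ρ ρ']
  -- the bound of the harmonic sums
  set S : ℝ := (K : ℝ) * ((H + 2 : ℕ) * Real.log x) ^ K * dv d ^ K * (2 * Real.log x) ^ (2 ^ K)
    with hS
  have hS0 : 0 ≤ S := by positivity
  have hterm : ∀ d1 ∈ d.divisors,
      ‖∑ a ∈ Finset.Icc 1 (d * ⌊x⌋₊), ∑ b ∈ Finset.Icc 1 (d * ⌊x⌋₊),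
        (if a * b ≤ ⌊x⌋₊ then
          (if Nat.Coprime a (e * (d / d1)) then ((ρ (d1 * a) : ℝ) : ℂ) * ψ (a : ZMod q) else 0) *
          (if Nat.Coprime b e then ((ρ' (d / d1 * b) : ℝ) : ℂ) * ψ (b : ZMod q) else 0) else 0)‖
        ≤ x * E * (3 * S) := by
    intro d1 hd1
    rw [Nat.mem_divisors] at hd1
    have hd1d := hd1.1
    have hd2d : d / d1 ∣ d := Nat.div_dvd_of_dvd hd1d
    have hd1pos : 0 < d1 := Nat.pos_of_dvd_of_pos hd1d hdpos
    have hd2pos : 0 < d / d1 := Nat.pos_of_dvd_of_pos hd2d hdpos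
    have hN : ⌊x⌋₊ ≤ d * ⌊x⌋₊ := Nat.le_mul_of_pos_left _ hdpos
    have hd1x : (d1 : ℝ) ≤ x ^ (2 * H) :=
      le_trans (by exact_mod_cast Nat.le_of_dvd hdpos hd1d) (hdx.trans hxH)
    have hd2x : ((d / d1 : ℕ) : ℝ) ≤ x ^ (2 * H) :=
      le_trans (by exact_mod_cast Nat.le_of_dvd hdpos hd2d) (hdx.trans hxH)
    have hd2x' : ((d / d1 : ℕ) : ℝ) ≤ x ^ H :=
      le_trans (by exact_mod_cast Nat.le_of_dvd hdpos hd2d) hdx
    have heex : ((e * (d / d1) : ℕ) : ℝ) ≤ x ^ (2 * H) := by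
      rw [Nat.cast_mul, two_mul, pow_add]
      exact mul_le_mul hex hd2x' (by positivity) (by positivity)
    have hψ1 : ∀ a : ℕ, ‖ψ (a : ZMod q)‖ ≤ 1 := fun a => DirichletCharacter.norm_le_one ψ _
    refine (hyp_bound (d * ⌊x⌋₊) x hxone hN _ _ E hE0 ?_ ?_).trans ?_
    · intro t ht1 ht2
      obtain ⟨hta, htb, htq, hlt, htH, ht1'⟩ := htx t ht1 ht2
      rw [← Finset.sum_filter]
      refine hsingle ρ t d1 (e * (d / d1)) ht1 ht2 hd1d (Nat.mul_pos he hd2pos) ?_ ?_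
      · refine (hmul e (d / d1)).trans ?_
        exact mul_le_mul_of_nonneg_left (dv_mono hd0 hd2d) (dv_nonneg e)
      · exact hx1 t hta q hq2 htq ψ hψ d1 (e * (d / d1)) (hdsq.squarefree_of_dvd hd1d)
          (Nat.mul_pos he hd2pos) (hd1x.trans htH) (heex.trans htH)
    · intro t ht1 ht2
      obtain ⟨hta, htb, htq, hlt, htH, ht1'⟩ := htx t ht1 ht2
      rw [← Finset.sum_filter]
      refine hsingle ρ' t (d / d1) e ht1 ht2 hd2d he ?_ ?_
      · exact le_mul_of_one_le_right (dv_nonneg e) hdvd1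
      · exact hx2 t htb q hq2 htq ψ hψ (d / d1) e (hdsq.squarefree_of_dvd hd2d)
          he (hd2x.trans htH) ((hex.trans hxH).trans htH)
    · have hxE : 0 ≤ x * E := by positivity
      refine mul_le_mul_of_nonneg_left ?_ hxE
      have hs1 := harm_bound hdiv hT H x hxe d d1 hd0 hd1d hdx
        (fun a => if Nat.Coprime a (e * (d / d1)) then ((ρ (d1 * a) : ℝ) : ℂ) * ψ (a : ZMod q) else 0)
        (by
          intro a
          split_ifs
          · rw [norm_mul, Complex.norm_real, Real.norm_eq_abs]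
            exact mul_le_of_le_one_right (abs_nonneg _) (hψ1 a)
          · rw [norm_zero]; exact abs_nonneg _)
      have hs2 := harm_bound hdiv hT' H x hxe d (d / d1) hd0 hd2d hdx
        (fun b => if Nat.Coprime b e then ((ρ' (d / d1 * b) : ℝ) : ℂ) * ψ (b : ZMod q) else 0)
        (by
          intro a
          split_ifs
          · rw [norm_mul, Complex.norm_real, Real.norm_eq_abs]
            exact mul_le_of_le_one_right (abs_nonneg _) (hψ1 a)
          · rw [norm_zero]; exact abs_nonneg _)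
      linarith
  refine (norm_sum_le_of_le _ hterm).trans ?_
  rw [Finset.sum_const, nsmul_eq_mul]
  have hdv : (d.divisors.card : ℝ) = dv d := rfl
  rw [hdv]
  -- final numerical comparison
  have hLB : 0 < Real.log x ^ B := by positivity
  rw [le_div_iff₀ hLB]
  have e1 : dv d * (x * E * (3 * S)) * Real.log x ^ B =
      x * dv d ^ (3 * K + 1) * dv e ^ K * (Q * (Real.log x ^ (M + B) / Real.log x ^ B')) := by
    rw [hE, hS, hQ, hM]
    rw [mul_pow, mul_pow, show 3 * K + 1 = 1 + 2 * K + K by ring, pow_add (dv d), pow_add (dv d),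
      pow_add (Real.log x), pow_add (Real.log x), pow_one]
    field_simp
    ring
  have e2 : Real.log x ^ (M + B) / Real.log x ^ B' = 1 / Real.log x := by
    rw [hB', show B + M + 1 = (M + B) + 1 by ring, pow_succ]
    field_simp
  rw [e1, e2]
  have h1 : Q * (1 / Real.log x) ≤ 1 := by
    rw [mul_one_div, div_le_one hLpos]
    exact hxQ
  have h2 : dv e ^ K ≤ dv e ^ (3 * K + 1) := pow_le_pow_right₀ hdve1 (by omega)
  have n1 := dv_nonneg d
  have n2 := dv_nonneg e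
  have hQ0 : 0 ≤ Q * (1 / Real.log x) := by positivity
  calc x * dv d ^ (3 * K + 1) * dv e ^ K * (Q * (1 / Real.log x))
      ≤ x * dv d ^ (3 * K + 1) * dv e ^ (3 * K + 1) * 1 := by gcongr
    _ = _ := by ring

/-- RGM: convolutions. -/
theorem rgm (hdiv : DivStatement) (hspl : SplStatement) : RgmStatement := by
  intro ρ ρ' hT hT' hR hR'
  refine ⟨?_, tb_mul hT hT'⟩
  obtain ⟨K1, h1⟩ := hT
  obtain ⟨K2, h2⟩ := hT'
  obtain ⟨K3, h3⟩ := hR
  obtain ⟨K4, h4⟩ := hR'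
  have g1 : TbK ρ (K1 + K2 + K3 + K4) := TbK.mono h1 (by omega)
  have g2 : TbK ρ' (K1 + K2 + K3 + K4) := TbK.mono h2 (by omega)
  have g3 : RegK ρ (K1 + K2 + K3 + K4) := RegK.mono h3 (by omega)
  have g4 : RegK ρ' (K1 + K2 + K3 + K4) := RegK.mono h4 (by omega)
  exact ⟨3 * (K1 + K2 + K3 + K4) + 1, regK_mul hdiv hspl g1 g2 g3 g4⟩

end Pool.Agent.Lib.MP_6bc78b_nt.MS.P2.H92
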